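import Mathlib

set_option autoImplicit false

namespace Pool.Agent.H264R2.Pigeon

open Finset

/-- Cauchy–Schwarz: number of pairs with the same image -/
lemma cs {α β : Type*} [DecidableEq α] [DecidableEq β] (S : Finset α) (T : Finset β) (F : α → β)
    (hF : ∀ a ∈ S, F a ∈ T) :
    S.card ^ 2 ≤ T.card * ((S ×ˢ S).filter (fun x => F x.1 = F x.2)).card := by
  have h1 : ∑ c ∈ T, (S.filter (fun a => F a = c)).card = S.card :=
    (Finset.card_eq_sum_card_fiberwise hF).symm
  have h2 : ((S ×ˢ S).filter (fun x => F x.1 = F x.2)).card =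
      ∑ c ∈ T, (S.filter (fun a => F a = c)).card ^ 2 := by
    rw [Finset.card_eq_sum_card_fiberwise (f := fun x => F x.1) (t := T)]
    · apply Finset.sum_congr rfl
      intro c _
      rw [sq, ← Finset.card_product]
      congr 1
      ext ⟨x, y⟩
      simp only [mem_filter, mem_product]
      constructor
      · rintro ⟨⟨⟨a, b⟩, c⟩, d⟩
        exact ⟨⟨a, d⟩, b, by rw [← c, d]⟩
      · rintro ⟨⟨a, b⟩, c, d⟩
        exact ⟨⟨⟨a, c⟩, by rw [b, d]⟩, b⟩
    · intro x hx
      simp only [coe_filter, mem_product, Set.mem_ofPred_eq] at hx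
      exact hF _ hx.1.1
  rw [h2, ← h1]
  exact sq_sum_le_card_mul_sum_sq

/-- `∑_{m ≤ M} 2^{#{p ∈ P : p ∣ m}} ≤ M ∏ (1 + 1/p)` -/
lemma sum_two_pow (P : Finset ℕ) (hP : ∀ p ∈ P, p.Prime) (M : ℕ) :
    ∑ m ∈ Icc 1 M, ((∏ p ∈ P, (if p ∣ m then 2 else 1) : ℕ) : ℝ) ≤ M * ∏ p ∈ P, (1 + 1 / (p : ℝ)) := by
  have h1 : ∀ m ∈ Icc 1 M, ((∏ p ∈ P, (if p ∣ m then 2 else 1) : ℕ) : ℝ) =
      ∑ U ∈ P.powerset, if (∏ p ∈ U, p) ∣ m then (1 : ℝ) else 0 := by
    intro m _
    have e : ((∏ p ∈ P, (if p ∣ m then 2 else 1) : ℕ) : ℝ) = ∏ p ∈ P, (1 + if p ∣ m then (1 : ℝ) else 0) := by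
      push_cast
      apply Finset.prod_congr rfl
      intro p _
      split_ifs <;> norm_num
    rw [e, Finset.prod_one_add]
    apply Finset.sum_congr rfl
    intro U hU
    rw [mem_powerset] at hU
    have hiff : (∏ p ∈ U, p) ∣ m ↔ ∀ p ∈ U, p ∣ m := by
      constructor
      · intro h p hp
        exact (Finset.dvd_prod_of_mem (fun p : ℕ => p) hp).trans h
      · intro h
        exact Finset.prod_primes_dvd m (fun p hp => (hP p (hU hp)).prime) h
    split_ifs with h
    · apply Finset.prod_eq_one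
      intro p hp
      rw [if_pos (hiff.1 h p hp)]
    · rw [hiff] at h
      push Not at h
      obtain ⟨p, hp, hpm⟩ := h
      apply Finset.prod_eq_zero hp
      rw [if_neg hpm]
  rw [Finset.sum_congr rfl h1, Finset.sum_comm, Finset.prod_one_add, Finset.mul_sum]
  apply Finset.sum_le_sum
  intro U hU
  rw [mem_powerset] at hU
  have h0 : 0 < ∏ p ∈ U, p := Finset.prod_pos fun p hp => (hP p (hU hp)).pos
  have h2 : ∑ m ∈ Icc 1 M, (if (∏ p ∈ U, p) ∣ m then (1 : ℝ) else 0) = ((M / ∏ p ∈ U, p : ℕ) : ℝ) := by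
    rw [← Finset.sum_filter, Finset.sum_const, nsmul_eq_mul, mul_one]
    have h3 := Nat.Ioc_filter_dvd_card_eq_div M (∏ p ∈ U, p)
    have e : Icc 1 M = Ioc 0 M := by ext x; simp [Nat.succ_le_iff]
    rw [e, h3]
  rw [h2]
  have h3 : ∏ p ∈ U, (1 / (p : ℝ)) = 1 / ((∏ p ∈ U, p : ℕ) : ℝ) := by
    push_cast
    rw [Finset.prod_div_distrib, Finset.prod_const_one]
  rw [h3, mul_one_div]
  exact Nat.cast_div_le

/-- squared norm -/
def N2 (v : ℤ × ℤ) : ℤ := v.1 ^ 2 + v.2 ^ 2

/-- a square root of `-1` modulo `p` -/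
lemma exists_root {p : ℕ} (hp : p.Prime) (h : p % 4 = 1) : ∃ r : ZMod p, r ^ 2 = -1 := by
  have : Fact p.Prime := ⟨hp⟩
  obtain ⟨r, hr⟩ := (ZMod.exists_sq_eq_neg_one_iff (p := p)).2 (by omega)
  exact ⟨r, by rw [sq]; exact hr.symm⟩

section
variable (P : Finset ℕ) (r : (p : ℕ) → ZMod p)

/-- the class map -/
def F (ε : P → Bool) (v : ℤ × ℤ) (p : P) : ZMod p :=
  (v.1 : ZMod p) + (if ε p then r p else - r p) * (v.2 : ZMod p)

/-- number of sign patterns for which `v` is in the kernel -/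
lemma count_signs (hP : ∀ p ∈ P, p.Prime ∧ p % 4 = 1) (hr : ∀ p ∈ P, (r p) ^ 2 = -1) (v : ℤ × ℤ)
    (m : ℕ) (hm : (m : ℤ) = N2 v) :
    ((univ : Finset (P → Bool)).filter (fun ε => F P r ε v = 0)).card ≤
      if (∏ p ∈ P, p) ∣ m then ∏ p ∈ P, (if p ∣ m / (∏ p ∈ P, p) then 2 else 1) else 0 := by
  set d := ∏ p ∈ P, p with hd
  have hd0 : 0 < d := Finset.prod_pos fun p hp => (hP p hp).1.pos
  -- the norm modulo p
  have hnorm : ∀ p ∈ P, ((m : ℕ) : ZMod p) = ((v.1 : ZMod p) + r p * v.2) * (v.1 - r p * v.2) := by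
    intro p hp
    have h1 : ((m : ℤ) : ZMod p) = ((N2 v : ℤ) : ZMod p) := by rw [hm]
    rw [N2] at h1
    push_cast at h1
    rw [h1]
    linear_combination ((v.2 : ZMod p) ^ 2) * (hr p hp)
  have hfac : ∀ p ∈ P, ∀ e : Bool, ((v.1 : ZMod p) + (if e then r p else - r p) * (v.2 : ZMod p) = 0) →
      p ∣ m := by
    intro p hp e he
    rw [← ZMod.natCast_eq_zero_iff, hnorm p hp]
    cases e
    · have : (v.1 : ZMod p) - r p * v.2 = 0 := by
        simp only [Bool.false_eq_true, if_false] at he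
        linear_combination he
      rw [this, mul_zero]
    · simp only [if_true] at he
      rw [he, zero_mul]
  by_cases hdm : d ∣ m
  · rw [if_pos hdm]
    have heq : ((univ : Finset (P → Bool)).filter (fun ε => F P r ε v = 0)) =
        Fintype.piFinset (fun p : P => (univ : Finset Bool).filter
          (fun e => (v.1 : ZMod p) + (if e then r p else - r p) * (v.2 : ZMod p) = 0)) := by
      ext ε
      simp only [mem_filter, mem_univ, true_and, Fintype.mem_piFinset]
      constructor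
      · intro h p
        exact congrFun h p
      · intro h
        funext p
        exact h p
    rw [heq, Fintype.card_piFinset]
    rw [← Finset.prod_coe_sort P (fun p => if p ∣ m / d then 2 else 1)]
    apply Finset.prod_le_prod'
    rintro ⟨p, hp⟩ _
    simp only
    split_ifs with hpm
    · exact (card_filter_le _ _).trans (by simp)
    · rw [Finset.card_le_one]
      intro a ha b hb
      rw [mem_filter] at ha hb
      by_contra hab
      apply hpm
      obtain ⟨hpp, hp4⟩ := hP p hp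
      have : Fact p.Prime := ⟨hpp⟩
      have hboth : (v.1 : ZMod p) + r p * v.2 = 0 ∧ (v.1 : ZMod p) - r p * v.2 = 0 := by
        rcases a with _ | _ <;> rcases b with _ | _
        · exact absurd rfl hab
        · have h1 := ha.2
          have h2 := hb.2
          simp only [Bool.false_eq_true, if_false] at h1
          simp only [if_true] at h2
          exact ⟨h2, by linear_combination h1⟩
        · have h1 := ha.2
          have h2 := hb.2
          simp only [Bool.false_eq_true, if_false] at h2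
          simp only [if_true] at h1
          exact ⟨h1, by linear_combination h2⟩
        · exact absurd rfl hab
      have h2ne : (2 : ZMod p) ≠ 0 := by
        intro h
        have : ((2 : ℕ) : ZMod p) = 0 := by exact_mod_cast h
        rw [ZMod.natCast_eq_zero_iff] at this
        have := Nat.le_of_dvd (by norm_num) this
        have := hpp.two_le
        interval_cases p
        simp at hp4
      have hv1 : (v.1 : ZMod p) = 0 := by
        have : (2 : ZMod p) * v.1 = 0 := by linear_combination hboth.1 + hboth.2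
        exact (mul_eq_zero.1 this).resolve_left h2ne
      have hv2 : (v.2 : ZMod p) = 0 := by
        have h3 : r p * (v.2 : ZMod p) = 0 := by
          have := hboth.1
          rw [hv1, zero_add] at this
          exact this
        have hr0 : r p ≠ 0 := by
          intro h
          have h4 := hr p hp
          rw [h] at h4
          have : (1 : ZMod p) = 0 := by linear_combination h4
          exact one_ne_zero this
        exact (mul_eq_zero.1 h3).resolve_left hr0
      have hd1 : (p : ℤ) ∣ v.1 := (ZMod.intCast_zmod_eq_zero_iff_dvd _ _).1 hv1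
      have hd2 : (p : ℤ) ∣ v.2 := (ZMod.intCast_zmod_eq_zero_iff_dvd _ _).1 hv2
      have hpp2 : p ^ 2 ∣ m := by
        have : ((p ^ 2 : ℕ) : ℤ) ∣ (m : ℤ) := by
          rw [hm, N2]
          push_cast
          exact dvd_add (pow_dvd_pow_of_dvd hd1 2) (pow_dvd_pow_of_dvd hd2 2)
        exact_mod_cast this
      -- d = p * d'
      have hde : d = p * ∏ q ∈ P.erase p, q := (Finset.mul_prod_erase P (fun q => q) hp).symm
      have hcop : Nat.Coprime p (∏ q ∈ P.erase p, q) := by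
        apply Nat.Coprime.prod_right
        intro q hq
        rw [mem_erase] at hq
        exact (Nat.coprime_primes hpp (hP q hq.2).1).2 (Ne.symm hq.1)
      obtain ⟨m', hm'⟩ := hdm
      have hmd : m / d = m' := by rw [hm']; exact Nat.mul_div_cancel_left m' hd0
      rw [hmd]
      have h5 : p ^ 2 ∣ p * ((∏ q ∈ P.erase p, q) * m') := by
        rw [← mul_assoc, ← hde, ← hm']; exact hpp2
      rw [sq] at h5
      have h6 := Nat.dvd_of_mul_dvd_mul_left hpp.pos h5
      exact hcop.dvd_of_dvd_mul_left h6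
  · rw [if_neg hdm, Nat.le_zero, Finset.card_eq_zero, Finset.filter_eq_empty_iff]
    intro ε _ h
    apply hdm
    apply Finset.prod_primes_dvd m (fun p hp => (hP p hp).1.prime)
    intro p hp
    exact hfac p hp (ε ⟨p, hp⟩) (congrFun h ⟨p, hp⟩)

end

/-- squared distance as a natural number -/
def nd (x : (ℤ × ℤ) × (ℤ × ℤ)) : ℕ := (N2 (x.1 - x.2)).toNat

lemma nd_cast (x : (ℤ × ℤ) × (ℤ × ℤ)) : ((nd x : ℕ) : ℤ) = N2 (x.1 - x.2) := by
  rw [nd, Int.toNat_of_nonneg]
  unfold N2; positivity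

lemma nd_pos {x : (ℤ × ℤ) × (ℤ × ℤ)} (h : x.1 ≠ x.2) : 0 < nd x := by
  have h1 := nd_cast x
  have h2 : 0 < N2 (x.1 - x.2) := by
    unfold N2
    rcases Decidable.em ((x.1 - x.2).1 = 0) with h3 | h3
    · have h4 : (x.1 - x.2).2 ≠ 0 := by
        intro h4
        apply h
        have : x.1 - x.2 = 0 := Prod.ext h3 h4
        exact sub_eq_zero.1 this
      positivity
    · positivity
  omega

/-- the main counting inequality: if every positive squared distance occurs for at most `L` ordered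
pairs of `S ⊆ [n]²`, then ... -/
theorem core (P : Finset ℕ) (hP : ∀ p ∈ P, p.Prime ∧ p % 4 = 1) (n : ℕ) (S : Finset (ℤ × ℤ))
    (hS : ∀ a ∈ S, (1 ≤ a.1 ∧ a.1 ≤ n) ∧ (1 ≤ a.2 ∧ a.2 ≤ n)) (L : ℕ)
    (hL : ∀ m : ℕ, 0 < m → ((S ×ˢ S).filter (fun x => nd x = m)).card ≤ L) :
    (2 : ℝ) ^ P.card * (S.card : ℝ) ^ 2 ≤ (∏ p ∈ P, (p : ℝ)) * (2 ^ P.card * S.card) +
      L * (2 * (n : ℝ) ^ 2 * ∏ p ∈ P, (1 + 1 / (p : ℝ))) := by
  classical
  choose! r hr using fun p (hp : p ∈ P) => exists_root (hP p hp).1 (hP p hp).2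
  set d := ∏ p ∈ P, p with hd
  have hd0 : 0 < d := Finset.prod_pos fun p hp => (hP p hp).1.pos
  have hdR : (∏ p ∈ P, (p : ℝ)) = (d : ℝ) := by rw [hd]; push_cast; rfl
  have hd0R : (0 : ℝ) < d := by exact_mod_cast hd0
  have : ∀ p : P, NeZero (p : ℕ) := fun p => ⟨(hP p.1 p.2).1.ne_zero⟩
  have hcard : (univ : Finset (∀ p : P, ZMod p)).card = d := by
    rw [Finset.card_univ, Fintype.card_pi]
    rw [hd, ← Finset.prod_coe_sort P (fun p => p)]
    apply Finset.prod_congr rfl
    intro p _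
    exact ZMod.card p
  -- (1)
  have h1 : ∀ ε : P → Bool, S.card ^ 2 ≤ d * ((S ×ˢ S).filter (fun x => F P r ε x.1 = F P r ε x.2)).card := by
    intro ε
    rw [← hcard]
    exact cs S univ (F P r ε) (fun a _ => mem_univ _)
  -- (2)
  have h2 : 2 ^ P.card * S.card ^ 2 ≤ d * ∑ x ∈ S ×ˢ S,
      ((univ : Finset (P → Bool)).filter (fun ε => F P r ε x.1 = F P r ε x.2)).card := by
    have e1 : ∑ x ∈ S ×ˢ S, ((univ : Finset (P → Bool)).filter (fun ε => F P r ε x.1 = F P r ε x.2)).card =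
        ∑ ε : P → Bool, ((S ×ˢ S).filter (fun x => F P r ε x.1 = F P r ε x.2)).card := by
      simp only [Finset.card_filter]
      exact Finset.sum_comm
    rw [e1, Finset.mul_sum]
    have e2 : 2 ^ P.card * S.card ^ 2 = ∑ ε : P → Bool, S.card ^ 2 := by
      rw [Finset.sum_const, Finset.card_univ, Fintype.card_fun, Fintype.card_bool, Fintype.card_coe, smul_eq_mul]
    rw [e2]
    exact Finset.sum_le_sum fun ε _ => h1 ε
  -- the weight
  set h : ℕ → ℕ := fun m => if d ∣ m then ∏ p ∈ P, (if p ∣ m / d then 2 else 1) else 0 with hh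
  have h3 : ∀ x ∈ S ×ˢ S,
      ((univ : Finset (P → Bool)).filter (fun ε => F P r ε x.1 = F P r ε x.2)).card ≤
      (if x.1 = x.2 then 2 ^ P.card else 0) + (if 0 < nd x then h (nd x) else 0) := by
    intro x _
    by_cases hx : x.1 = x.2
    · rw [if_pos hx]
      refine (card_filter_le _ _).trans ?_
      rw [Finset.card_univ, Fintype.card_fun, Fintype.card_bool, Fintype.card_coe]
      omega
    · rw [if_neg hx, if_pos (nd_pos hx), zero_add]
      have := count_signs P r hP hr (x.1 - x.2) (nd x) (nd_cast x)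
      refine le_trans (le_of_eq ?_) this
      congr 1
      apply Finset.filter_congr
      intro ε _
      have : F P r ε (x.1 - x.2) = F P r ε x.1 - F P r ε x.2 := by
        funext p
        simp only [F, Pi.sub_apply, Prod.fst_sub, Prod.snd_sub]
        push_cast
        ring
      rw [this, sub_eq_zero]
  have h4 : ∑ x ∈ S ×ˢ S, (if x.1 = x.2 then 2 ^ P.card else 0) ≤ 2 ^ P.card * S.card := by
    rw [← Finset.sum_filter, Finset.sum_const, smul_eq_mul, mul_comm]
    apply Nat.mul_le_mul_left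
    rw [← Finset.diag_card S]
    apply card_le_card
    intro x hx
    rw [mem_filter, mem_product] at hx
    rw [Finset.mem_diag]
    exact ⟨hx.1.1, hx.2⟩
  -- (4)
  have hbound : ∀ x ∈ S ×ˢ S, nd x ≤ 2 * n ^ 2 := by
    intro x hx
    rw [mem_product] at hx
    have a := hS _ hx.1
    have b := hS _ hx.2
    have h1 := nd_cast x
    have h5 : N2 (x.1 - x.2) ≤ 2 * (n : ℤ) ^ 2 := by
      unfold N2
      have c1 : (x.1 - x.2).1 ^ 2 ≤ (n : ℤ) ^ 2 := by
        rw [Prod.fst_sub]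
        exact sq_le_sq' (by linarith [a.1.1, b.1.2]) (by linarith [a.1.2, b.1.1])
      have c2 : (x.1 - x.2).2 ^ 2 ≤ (n : ℤ) ^ 2 := by
        rw [Prod.snd_sub]
        exact sq_le_sq' (by linarith [a.2.1, b.2.2]) (by linarith [a.2.2, b.2.1])
      linarith
    have : ((nd x : ℕ) : ℤ) ≤ ((2 * n ^ 2 : ℕ) : ℤ) := by rw [h1]; push_cast; exact h5
    exact_mod_cast this
  have h5 : ∑ x ∈ S ×ˢ S, (if 0 < nd x then h (nd x) else 0) ≤ L * ∑ m ∈ Icc 1 (2 * n ^ 2), h m := by
    rw [← Finset.sum_filter]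
    rw [← Finset.sum_fiberwise_of_maps_to (s := (S ×ˢ S).filter (fun x => 0 < nd x)) (t := Icc 1 (2 * n ^ 2))
      (g := nd) (f := fun x => h (nd x))]
    · rw [Finset.mul_sum]
      apply Finset.sum_le_sum
      intro m hm
      rw [mem_Icc] at hm
      have e : ∑ x ∈ ((S ×ˢ S).filter (fun x => 0 < nd x)).filter (fun x => nd x = m), h (nd x) =
          (((S ×ˢ S).filter (fun x => 0 < nd x)).filter (fun x => nd x = m)).card * h m := by
        rw [Finset.sum_congr rfl (g := fun _ => h m), Finset.sum_const, smul_eq_mul]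
        intro x hx
        rw [mem_filter] at hx
        rw [hx.2]
      rw [e]
      apply Nat.mul_le_mul_right
      refine le_trans (card_le_card ?_) (hL m (by omega))
      intro x hx
      rw [mem_filter, mem_filter] at hx
      rw [mem_filter]
      exact ⟨hx.1.1, hx.2⟩
    · intro x hx
      rw [mem_filter] at hx
      rw [mem_Icc]
      exact ⟨hx.2, hbound x hx.1⟩
  have h6 : ((∑ m ∈ Icc 1 (2 * n ^ 2), h m : ℕ) : ℝ) ≤ (2 * (n : ℝ) ^ 2 / d) * ∏ p ∈ P, (1 + 1 / (p : ℝ)) := by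
    have e1 : ∑ m ∈ Icc 1 (2 * n ^ 2), h m = ∑ m ∈ Icc 1 (2 * n ^ 2 / d), ∏ p ∈ P, (if p ∣ m then 2 else 1) := by
      rw [hh]
      simp only
      rw [← Finset.sum_filter]
      symm
      apply Finset.sum_nbij (fun m => d * m)
      · intro m hm
        rw [mem_Icc] at hm
        rw [mem_filter, mem_Icc]
        refine ⟨⟨Nat.mul_pos hd0 (by omega), ?_⟩, dvd_mul_right _ _⟩
        exact (Nat.mul_le_mul_left d hm.2).trans (Nat.mul_div_le _ _)
      · intro a _ b _ hab
        exact Nat.eq_of_mul_eq_mul_left hd0 hab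
      · intro m hm
        simp only [coe_filter, mem_Icc, Set.mem_ofPred_eq] at hm
        obtain ⟨m', rfl⟩ := hm.2
        refine ⟨m', ?_, rfl⟩
        simp only [coe_Icc, Set.mem_Icc]
        refine ⟨?_, ?_⟩
        · rcases Nat.eq_zero_or_pos m' with h | h
          · subst h; simp at hm
          · exact h
        · rw [Nat.le_div_iff_mul_le hd0]
          linarith [hm.1.2]
      · intro m _
        rw [Nat.mul_div_cancel_left m hd0]
    rw [e1]
    have := sum_two_pow P (fun p hp => (hP p hp).1) (2 * n ^ 2 / d)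
    push_cast at this ⊢
    refine this.trans ?_
    apply mul_le_mul_of_nonneg_right _ (Finset.prod_nonneg fun p _ => by positivity)
    have h7 : ((2 * n ^ 2 / d : ℕ) : ℝ) ≤ ((2 * n ^ 2 : ℕ) : ℝ) / d := Nat.cast_div_le
    push_cast at h7
    exact h7
  have h7 : 2 ^ P.card * S.card ^ 2 ≤ d * (2 ^ P.card * S.card + L * ∑ m ∈ Icc 1 (2 * n ^ 2), h m) := by
    refine h2.trans (Nat.mul_le_mul_left d ?_)
    refine (Finset.sum_le_sum h3).trans ?_
    rw [Finset.sum_add_distrib]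
    exact Nat.add_le_add h4 h5
  have h8 : (2 : ℝ) ^ P.card * (S.card : ℝ) ^ 2 ≤ d * (2 ^ P.card * S.card + L * ((∑ m ∈ Icc 1 (2 * n ^ 2), h m : ℕ) : ℝ)) := by
    exact_mod_cast h7
  rw [hdR]
  refine h8.trans ?_
  rw [mul_add]
  have h9 : (d : ℝ) * (L * ((∑ m ∈ Icc 1 (2 * n ^ 2), h m : ℕ) : ℝ)) ≤
      d * (L * ((2 * (n : ℝ) ^ 2 / d) * ∏ p ∈ P, (1 + 1 / (p : ℝ)))) := by
    apply mul_le_mul_of_nonneg_left _ hd0R.le
    exact mul_le_mul_of_nonneg_left h6 (by positivity)
  have h10 : (d : ℝ) * (L * ((2 * (n : ℝ) ^ 2 / d) * ∏ p ∈ P, (1 + 1 / (p : ℝ)))) =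
      L * (2 * (n : ℝ) ^ 2 * ∏ p ∈ P, (1 + 1 / (p : ℝ))) := by
    field_simp
  linarith

/-- squares modulo an odd prime occupy at most `(p+1)/2` classes -/
lemma sq_classes {p : ℕ} (hp : p.Prime) (h4 : p % 4 = 1) :
    ∃ T : Finset (ZMod p), (∀ x : ZMod p, x ^ 2 ∈ T) ∧ 5 * T.card ≤ 3 * p := by
  have : Fact p.Prime := ⟨hp⟩
  refine ⟨(range (p / 2 + 1)).image (fun i : ℕ => ((i : ZMod p)) ^ 2), ?_, ?_⟩
  · intro x
    rw [mem_image]
    refine ⟨x.valMinAbs.natAbs, ?_, ?_⟩
    · rw [mem_range]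
      have := ZMod.natAbs_valMinAbs_le x
      omega
    · have h1 : ((x.valMinAbs.natAbs : ZMod p)) ^ 2 = ((x.valMinAbs : ℤ) : ZMod p) ^ 2 := by
        have h2 : ((x.valMinAbs.natAbs : ℤ)) ^ 2 = x.valMinAbs ^ 2 := Int.natAbs_sq _
        have h3 : (((x.valMinAbs.natAbs : ℤ) ^ 2 : ℤ) : ZMod p) = ((x.valMinAbs ^ 2 : ℤ) : ZMod p) := by
          rw [h2]
        rw [Int.cast_pow, Int.cast_pow, Int.cast_natCast] at h3
        exact h3
      rw [h1, ZMod.coe_valMinAbs]
  · have h1 : ((range (p / 2 + 1)).image (fun i : ℕ => ((i : ZMod p)) ^ 2)).card ≤ p / 2 + 1 := by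
      refine card_image_le.trans ?_
      rw [card_range]
    have h5 : 5 ≤ p := by
      have := hp.two_le
      by_contra h
      interval_cases p <;> simp_all
    omega

/-- counting inequality for Sidon sets of squares, given by the set of roots -/
theorem core_sq (P : Finset ℕ) (hP : ∀ p ∈ P, p.Prime ∧ p % 4 = 1) (N : ℕ) (A : Finset ℕ)
    (hA : ∀ a ∈ A, a ≤ N)
    (hS : ∀ a ∈ A, ∀ b ∈ A, ∀ c ∈ A, ∀ e ∈ A, a ≠ b → (a : ℤ) ^ 2 - (b : ℤ) ^ 2 = (c : ℤ) ^ 2 - (e : ℤ) ^ 2 →
      a = c ∧ b = e) :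
    ((A.card : ℝ)) ^ 2 ≤ (∏ p ∈ P, (p : ℝ)) * (A.card + 1) + 2 * (N : ℝ) ^ 2 * (3 / 5) ^ P.card := by
  classical
  have hex : ∀ p ∈ P, ∃ T : Finset (ZMod p), (∀ x : ZMod p, x ^ 2 ∈ T) ∧ 5 * T.card ≤ 3 * p :=
    fun p hp => sq_classes (hP p hp).1 (hP p hp).2
  choose! T hT1 hT2 using hex
  set d := ∏ p ∈ P, p with hd
  have hd0 : 0 < d := Finset.prod_pos fun p hp => (hP p hp).1.pos
  have hdR : (∏ p ∈ P, (p : ℝ)) = (d : ℝ) := by rw [hd]; push_cast; rfl
  have hd0R : (0 : ℝ) < d := by exact_mod_cast hd0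
  set TT : Finset (∀ p : P, ZMod p) := Fintype.piFinset (fun p : P => T p) with hTT
  set G : ℕ → (∀ p : P, ZMod p) := fun a p => (a : ZMod p) ^ 2 with hG
  have h1 := cs A TT G (fun a _ => by
    rw [hTT, Fintype.mem_piFinset]
    intro p
    exact hT1 p.1 p.2 _)
  have hTc : (TT.card : ℝ) ≤ (3 / 5) ^ P.card * d := by
    rw [hTT, Fintype.card_piFinset]
    push_cast
    rw [← hdR, ← Finset.prod_coe_sort P (fun p => (p : ℝ))]
    have : (3 / 5 : ℝ) ^ P.card = ∏ _p : P, (3 / 5 : ℝ) := by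
      rw [Finset.prod_const, Finset.card_univ, Fintype.card_coe]
    rw [this, ← Finset.prod_mul_distrib]
    apply Finset.prod_le_prod
    · intro p _; positivity
    · intro p _
      have := hT2 p.1 p.2
      have h3 : (5 : ℝ) * ((T p).card : ℝ) ≤ 3 * ((p : ℕ) : ℝ) := by exact_mod_cast this
      linarith
  have hdvd : ∀ x ∈ (A ×ˢ A).filter (fun x => G x.1 = G x.2), (d : ℤ) ∣ ((x.1 : ℤ) ^ 2 - (x.2 : ℤ) ^ 2) := by
    intro x hx
    rw [mem_filter] at hx
    rw [Int.natCast_dvd]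
    apply Finset.prod_primes_dvd _ (fun p hp => (hP p hp).1.prime)
    intro p hp
    rw [← Int.natCast_dvd, ← ZMod.intCast_zmod_eq_zero_iff_dvd]
    have h3 := congrFun hx.2 ⟨p, hp⟩
    simp only [hG] at h3
    push_cast
    rw [h3, sub_self]
  -- pairs
  have h2 : ((A ×ˢ A).filter (fun x => G x.1 = G x.2)).card ≤ A.card + (2 * (N ^ 2 / d) + 1) := by
    have hsub : (A ×ˢ A).filter (fun x => G x.1 = G x.2) ⊆ A.diag ∪
        ((A ×ˢ A).filter (fun x => G x.1 = G x.2)).filter (fun x => x.1 ≠ x.2) := by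
      intro x hx
      rw [mem_union]
      by_cases h : x.1 = x.2
      · left
        rw [mem_diag]
        rw [mem_filter, mem_product] at hx
        exact ⟨hx.1.1, h⟩
      · right
        rw [mem_filter]
        exact ⟨hx, h⟩
    refine (card_le_card hsub).trans ((card_union_le _ _).trans ?_)
    rw [Finset.diag_card]
    apply Nat.add_le_add_left
    have hinj : Set.InjOn (fun x : ℕ × ℕ => ((x.1 : ℤ) ^ 2 - (x.2 : ℤ) ^ 2) / (d : ℤ))
        (((A ×ˢ A).filter (fun x => G x.1 = G x.2)).filter (fun x => x.1 ≠ x.2) : Finset (ℕ × ℕ)) := by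
      intro x hx y hy hxy
      simp only [coe_filter, Set.mem_ofPred_eq] at hx hy
      have hx' := hdvd x hx.1
      have hy' := hdvd y hy.1
      have e : (x.1 : ℤ) ^ 2 - (x.2 : ℤ) ^ 2 = (y.1 : ℤ) ^ 2 - (y.2 : ℤ) ^ 2 := by
        simp only at hxy
        rw [← Int.ediv_mul_cancel hx', ← Int.ediv_mul_cancel hy', hxy]
      rw [mem_filter, mem_product] at hx hy
      have := hS _ hx.1.1.1 _ hx.1.1.2 _ hy.1.1.1 _ hy.1.1.2 hx.2 e
      exact Prod.ext this.1 this.2
    have hmap : ∀ x ∈ ((A ×ˢ A).filter (fun x => G x.1 = G x.2)).filter (fun x => x.1 ≠ x.2),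
        ((x.1 : ℤ) ^ 2 - (x.2 : ℤ) ^ 2) / (d : ℤ) ∈ Icc (-((N ^ 2 / d : ℕ) : ℤ)) ((N ^ 2 / d : ℕ) : ℤ) := by
      intro x hx
      rw [mem_filter] at hx
      have hx' := hdvd x hx.1
      obtain ⟨q, hq⟩ := hx'
      have hdz : (d : ℤ) ≠ 0 := by exact_mod_cast hd0.ne'
      rw [hq, Int.mul_ediv_cancel_left _ hdz]
      have hx2 := hx.1
      rw [mem_filter, mem_product] at hx2
      have a1 := hA _ hx2.1.1
      have a2 := hA _ hx2.1.2
      have b1 : (x.1 : ℤ) ^ 2 ≤ (N : ℤ) ^ 2 := by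
        have : x.1 ^ 2 ≤ N ^ 2 := Nat.pow_le_pow_left a1 2
        exact_mod_cast this
      have b2 : (x.2 : ℤ) ^ 2 ≤ (N : ℤ) ^ 2 := by
        have : x.2 ^ 2 ≤ N ^ 2 := Nat.pow_le_pow_left a2 2
        exact_mod_cast this
      have habs : |(d : ℤ) * q| ≤ (N : ℤ) ^ 2 := by
        rw [← hq, abs_le]
        constructor <;> nlinarith [sq_nonneg (x.1 : ℤ), sq_nonneg (x.2 : ℤ)]
      have h3 : d * q.natAbs ≤ N ^ 2 := by
        have : ((d * q.natAbs : ℕ) : ℤ) ≤ ((N ^ 2 : ℕ) : ℤ) := by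
          push_cast
          rw [abs_mul] at habs
          simpa using habs
        exact_mod_cast this
      have h4 : q.natAbs ≤ N ^ 2 / d := by
        rw [Nat.le_div_iff_mul_le hd0, mul_comm]
        exact h3
      rw [mem_Icc]
      omega
    have := Finset.card_le_card_of_injOn _ hmap hinj
    rw [Int.card_Icc] at this
    refine this.trans ?_
    omega
  have h3 : ((A.card : ℝ)) ^ 2 ≤ TT.card * (A.card + (2 * (N ^ 2 / d : ℕ) + 1)) := by
    have : A.card ^ 2 ≤ TT.card * (A.card + (2 * (N ^ 2 / d) + 1)) :=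
      h1.trans (Nat.mul_le_mul_left _ h2)
    exact_mod_cast this
  have h4 : ((N ^ 2 / d : ℕ) : ℝ) ≤ (N : ℝ) ^ 2 / d := by
    have : ((N ^ 2 / d : ℕ) : ℝ) ≤ ((N ^ 2 : ℕ) : ℝ) / d := Nat.cast_div_le
    push_cast at this
    exact this
  have hc0 : (0 : ℝ) ≤ A.card := by positivity
  calc ((A.card : ℝ)) ^ 2 ≤ TT.card * (A.card + (2 * (N ^ 2 / d : ℕ) + 1)) := h3
    _ ≤ ((3 / 5) ^ P.card * d) * (A.card + (2 * ((N : ℝ) ^ 2 / d) + 1)) := by
        apply mul_le_mul hTc _ (by positivity) (by positivity)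
        linarith
    _ = (3 / 5) ^ P.card * (d * (A.card + 1)) + 2 * (N : ℝ) ^ 2 * (3 / 5) ^ P.card := by
        field_simp
        ring
    _ ≤ _ := by
        rw [hdR]
        have h5 : (3 / 5 : ℝ) ^ P.card ≤ 1 := pow_le_one₀ (by norm_num) (by norm_num)
        have h6 : (0 : ℝ) ≤ d * (A.card + 1) := by positivity
        nlinarith

end Pool.Agent.H264R2.Pigeon
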