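import Pool.Agent.H264R2.Choose
import Pool.Agent.H264R2.Pigeon

set_option autoImplicit false

namespace Pool.Agent.H264R2.Bounds

open Finset Filter Pool.Agent.H264R2.Choose Pool.Agent.H264R2.Pigeon

/-- the saving `exp(-log n / (200 log log n))` -/
noncomputable def sav (n : ℕ) : ℝ := Real.exp (-(Real.log n / (200 * Real.log (Real.log n))))

theorem choose_n : ∃ n₀ : ℕ, ∀ n : ℕ, n₀ ≤ n → ∃ P : Finset ℕ,
    (∀ p ∈ P, p.Prime ∧ p % 4 = 1) ∧ 2 * (∏ p ∈ P, (p : ℝ)) ≤ √(n : ℝ) ∧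
    8 * (3 / 5 : ℝ) ^ P.card ≤ sav n ∧ 1 ≤ Real.log (Real.log n) ∧ 4 ≤ n := by
  obtain ⟨x₀, hx₀⟩ := choose_aux
  obtain ⟨n₀, hn₀⟩ := exists_nat_gt (Real.exp (max x₀ (Real.exp 1)))
  refine ⟨max n₀ 4, fun n hn => ?_⟩
  have hn1 : n₀ ≤ n := (le_max_left _ _).trans hn
  have hn4 : 4 ≤ n := (le_max_right _ _).trans hn
  have h1 : Real.exp (max x₀ (Real.exp 1)) < n := hn₀.trans_le (by exact_mod_cast hn1)
  have hnpos : (0 : ℝ) < n := (Real.exp_pos _).trans h1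
  have h2 : max x₀ (Real.exp 1) ≤ Real.log n := by
    rw [Real.le_log_iff_exp_le hnpos]
    exact h1.le
  obtain ⟨P, hP1, hP2, hP3⟩ := hx₀ (Real.log n) ((le_max_left _ _).trans h2)
  refine ⟨P, hP1, ?_, hP3, ?_, hn4⟩
  · refine hP2.trans (le_of_eq ?_)
    rw [Real.sqrt_eq_rpow, Real.rpow_def_of_pos hnpos]
    congr 1
    ring
  · have h3 : Real.exp 1 ≤ Real.log n := (le_max_right _ _).trans h2
    rw [Real.le_log_iff_exp_le ((Real.exp_pos _).trans_le h3)]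
    exact h3

lemma prod_le (P : Finset ℕ) (hP : ∀ p ∈ P, p.Prime ∧ p % 4 = 1) :
    ∏ p ∈ P, (1 + 1 / (p : ℝ)) ≤ (6 / 5) ^ P.card := by
  rw [← Finset.prod_const]
  apply Finset.prod_le_prod
  · intro p _; positivity
  · intro p hp
    obtain ⟨h1, h2⟩ := hP p hp
    have h5 : 5 ≤ p := by
      have := h1.two_le
      omega
    have h5R : (5 : ℝ) ≤ p := by exact_mod_cast h5
    have : 1 / (p : ℝ) ≤ 1 / 5 := one_div_le_one_div_of_le (by norm_num) h5R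
    linarith

lemma sav_pos (n : ℕ) : 0 < sav n := Real.exp_pos _

/-- `sav n ≥ 1/n` -/
lemma sav_ge {n : ℕ} (hn : 4 ≤ n) (h : 1 ≤ Real.log (Real.log n)) : Real.exp (-(Real.log n / 200)) ≤ sav n := by
  unfold sav
  apply Real.exp_le_exp.2
  have h0 : 0 ≤ Real.log n := Real.log_nonneg (by
    have : (4 : ℝ) ≤ n := by exact_mod_cast hn
    linarith)
  have : Real.log n / (200 * Real.log (Real.log n)) ≤ Real.log n / 200 := by
    apply div_le_div_of_nonneg_left h0 (by norm_num)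
    linarith
  linarith

lemma sav_ge' {n : ℕ} (hn : 4 ≤ n) (h : 1 ≤ Real.log (Real.log n)) : (n : ℝ) ≤ (n : ℝ) ^ 2 * sav n := by
  have h4 : (4 : ℝ) ≤ n := by exact_mod_cast hn
  have h1 := sav_ge hn h
  have h0 : 0 ≤ Real.log n := Real.log_nonneg (by linarith)
  have h2 : Real.exp (-(Real.log n)) ≤ sav n := by
    refine le_trans (Real.exp_le_exp.2 ?_) h1
    linarith
  rw [Real.exp_neg, Real.exp_log (by linarith)] at h2
  have h3 : (n : ℝ) ^ 2 * (n : ℝ)⁻¹ ≤ (n : ℝ) ^ 2 * sav n := mul_le_mul_of_nonneg_left h2 (by positivity)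
  have h5 : (n : ℝ) ^ 2 * (n : ℝ)⁻¹ = n := by field_simp
  linarith

/-- generic: a bound `k² ≤ n² sav` gives the power form -/
lemma to_rpow {n : ℕ} (hn : 4 ≤ n) {k : ℝ} (_hk : 0 ≤ k) (h : k ^ 2 ≤ (n : ℝ) ^ 2 * sav n) :
    k ≤ (n : ℝ) ^ (1 - 1 / 400 / Real.log (Real.log n)) := by
  have h4 : (4 : ℝ) ≤ n := by exact_mod_cast hn
  have hn0 : (0 : ℝ) < n := by linarith
  have e : ((n : ℝ) ^ (1 - 1 / 400 / Real.log (Real.log n))) ^ 2 = (n : ℝ) ^ 2 * sav n := by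
    rw [← Real.rpow_natCast, ← Real.rpow_mul hn0.le, sav, Real.rpow_def_of_pos hn0]
    have : (n : ℝ) ^ 2 = Real.exp (2 * Real.log n) := by
      rw [mul_comm, Real.exp_mul, Real.exp_log hn0]
      norm_cast
    rw [this, ← Real.exp_add]
    congr 1
    push_cast
    ring
  rw [← e] at h
  exact (abs_le_of_sq_le_sq' h (by positivity)).2

theorem distinct : ∃ n₀ : ℕ, ∀ n : ℕ, n₀ ≤ n → ∀ S : Finset (ℤ × ℤ),
    (∀ a ∈ S, (1 ≤ a.1 ∧ a.1 ≤ n) ∧ (1 ≤ a.2 ∧ a.2 ≤ n)) →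
    (∀ m : ℕ, 0 < m → ((S ×ˢ S).filter (fun x => nd x = m)).card ≤ 2) →
    (S.card : ℝ) ≤ (n : ℝ) ^ (1 - 1 / 400 / Real.log (Real.log n)) := by
  obtain ⟨n₀, h⟩ := choose_n
  refine ⟨n₀, fun n hn S hS hL => ?_⟩
  obtain ⟨P, hP, hd, hsav, hll, hn4⟩ := h n hn
  have hcore := core P hP n S hS 2 hL
  have hprod := prod_le P hP
  set k : ℝ := (S.card : ℝ) with hk
  have hk0 : 0 ≤ k := by positivity
  apply to_rpow hn4 hk0
  by_cases hks : k < √(n : ℝ)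
  · have h1 : k ^ 2 ≤ n := by
      have := Real.sq_sqrt (show (0 : ℝ) ≤ n by positivity)
      nlinarith [Real.sqrt_nonneg (n : ℝ)]
    exact h1.trans (sav_ge' hn4 hll)
  · push Not at hks
    have h2w : (0 : ℝ) < 2 ^ P.card := by positivity
    have e1 : (6 / 5 : ℝ) ^ P.card = 2 ^ P.card * (3 / 5) ^ P.card := by
      rw [← mul_pow]; norm_num
    have h1 : (2 : ℝ) ^ P.card * k ^ 2 ≤ 2 ^ P.card * ((∏ p ∈ P, (p : ℝ)) * k + 4 * (n : ℝ) ^ 2 * (3 / 5) ^ P.card) := by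
      refine hcore.trans ?_
      have : ((2 : ℕ) : ℝ) * (2 * (n : ℝ) ^ 2 * ∏ p ∈ P, (1 + 1 / (p : ℝ))) ≤
          2 * (2 * (n : ℝ) ^ 2 * (2 ^ P.card * (3 / 5) ^ P.card)) := by
        rw [← e1]
        push_cast
        apply mul_le_mul_of_nonneg_left _ (by norm_num)
        exact mul_le_mul_of_nonneg_left hprod (by positivity)
      linarith
    have h2 := le_of_mul_le_mul_left h1 h2w
    have h3 : (∏ p ∈ P, (p : ℝ)) * k ≤ k ^ 2 / 2 := by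
      have : (∏ p ∈ P, (p : ℝ)) ≤ k / 2 := by linarith
      nlinarith
    have h4 : (n : ℝ) ^ 2 * (8 * (3 / 5) ^ P.card) ≤ (n : ℝ) ^ 2 * sav n :=
      mul_le_mul_of_nonneg_left hsav (by positivity)
    linarith

theorem iso : ∃ n₀ : ℕ, ∀ n : ℕ, n₀ ≤ n → ∀ S : Finset (ℤ × ℤ),
    (∀ a ∈ S, (1 ≤ a.1 ∧ a.1 ≤ n) ∧ (1 ≤ a.2 ∧ a.2 ≤ n)) →
    (∀ m : ℕ, 0 < m → ((S ×ˢ S).filter (fun x => nd x = m)).card ≤ S.card) →
    (S.card : ℝ) ≤ (n : ℝ) ^ (2 - 1 / 200 / Real.log (Real.log n)) := by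
  obtain ⟨n₀, h⟩ := choose_n
  refine ⟨n₀, fun n hn S hS hL => ?_⟩
  obtain ⟨P, hP, hd, hsav, hll, hn4⟩ := h n hn
  have hcore := core P hP n S hS S.card hL
  have hprod := prod_le P hP
  have h4R : (4 : ℝ) ≤ n := by exact_mod_cast hn4
  have hn0 : (0 : ℝ) < n := by linarith
  have e : (n : ℝ) ^ (2 - 1 / 200 / Real.log (Real.log n)) = (n : ℝ) ^ 2 * sav n := by
    rw [sav, Real.rpow_def_of_pos hn0]
    have : (n : ℝ) ^ 2 = Real.exp (2 * Real.log n) := by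
      rw [mul_comm, Real.exp_mul, Real.exp_log hn0]
      norm_cast
    rw [this, ← Real.exp_add]
    congr 1
    ring
  rw [e]
  set k : ℝ := (S.card : ℝ) with hk
  rcases Nat.eq_zero_or_pos S.card with h0 | hpos
  · rw [hk, h0]
    have := sav_pos n
    simp only [Nat.cast_zero]
    positivity
  have hk0 : 0 < k := by rw [hk]; exact_mod_cast hpos
  have h2w : (0 : ℝ) < 2 ^ P.card := by positivity
  have e1 : (6 / 5 : ℝ) ^ P.card = 2 ^ P.card * (3 / 5) ^ P.card := by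
    rw [← mul_pow]; norm_num
  have h1 : ((2 : ℝ) ^ P.card * k) * k ≤ ((2 : ℝ) ^ P.card * k) * ((∏ p ∈ P, (p : ℝ)) + 2 * (n : ℝ) ^ 2 * (3 / 5) ^ P.card) := by
    have h2 : (2 : ℝ) ^ P.card * k * k = 2 ^ P.card * k ^ 2 := by ring
    rw [h2]
    refine hcore.trans ?_
    have : k * (2 * (n : ℝ) ^ 2 * ∏ p ∈ P, (1 + 1 / (p : ℝ))) ≤
        k * (2 * (n : ℝ) ^ 2 * (2 ^ P.card * (3 / 5) ^ P.card)) := by
      rw [← e1]
      apply mul_le_mul_of_nonneg_left _ hk0.le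
      exact mul_le_mul_of_nonneg_left hprod (by positivity)
    linarith
  have h2 := le_of_mul_le_mul_left h1 (by positivity)
  have h4 : (n : ℝ) ^ 2 * (8 * (3 / 5) ^ P.card) ≤ (n : ℝ) ^ 2 * sav n :=
    mul_le_mul_of_nonneg_left hsav (by positivity)
  have h5 := sav_ge' hn4 hll
  have h6 : √(n : ℝ) ≤ n := by
    rw [Real.sqrt_le_left (by positivity)]
    nlinarith
  linarith

theorem squares : ∃ n₀ : ℕ, ∀ N : ℕ, n₀ ≤ N → ∀ A : Finset ℕ, (∀ a ∈ A, a ≤ N) →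
    (∀ a ∈ A, ∀ b ∈ A, ∀ c ∈ A, ∀ e ∈ A, a ≠ b → (a : ℤ) ^ 2 - (b : ℤ) ^ 2 = (c : ℤ) ^ 2 - (e : ℤ) ^ 2 →
      a = c ∧ b = e) →
    (A.card : ℝ) ≤ (N : ℝ) ^ (1 - 1 / 400 / Real.log (Real.log N)) := by
  obtain ⟨n₀, h⟩ := choose_n
  refine ⟨n₀, fun n hn A hA hS => ?_⟩
  obtain ⟨P, hP, hd, hsav, hll, hn4⟩ := h n hn
  have hcore := core_sq P hP n A hA hS
  set k : ℝ := (A.card : ℝ) with hk
  have hk0 : 0 ≤ k := by positivity
  apply to_rpow hn4 hk0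
  have h4R : (4 : ℝ) ≤ n := by exact_mod_cast hn4
  by_cases hks : k < √(n : ℝ)
  · have h1 : k ^ 2 ≤ n := by
      have := Real.sq_sqrt (show (0 : ℝ) ≤ n by positivity)
      nlinarith [Real.sqrt_nonneg (n : ℝ)]
    exact h1.trans (sav_ge' hn4 hll)
  · push Not at hks
    have h2 : 2 ≤ √(n : ℝ) := by
      apply Real.le_sqrt_of_sq_le
      linarith
    have hprodpos : 0 ≤ (∏ p ∈ P, (p : ℝ)) := Finset.prod_nonneg fun p _ => by positivity
    have h3 : (∏ p ∈ P, (p : ℝ)) * (k + 1) ≤ 3 * k ^ 2 / 4 := by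
      have : (∏ p ∈ P, (p : ℝ)) ≤ k / 2 := by linarith
      have h5 : k + 1 ≤ 3 * k / 2 := by linarith
      calc (∏ p ∈ P, (p : ℝ)) * (k + 1) ≤ (k / 2) * (3 * k / 2) := by
            apply mul_le_mul this h5 (by linarith) (by linarith)
        _ = _ := by ring
    have h4 : (n : ℝ) ^ 2 * (8 * (3 / 5) ^ P.card) ≤ (n : ℝ) ^ 2 * sav n :=
      mul_le_mul_of_nonneg_left hsav (by positivity)
    linarith

end Pool.Agent.H264R2.Bounds
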