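import Pool.Agent.H264R2.Count

set_option autoImplicit false

namespace Pool.Agent.H264R2.Choose

open Finset Filter Pool.Agent.H264R2.Count

lemma div_log_ge {x : ℝ} (hx : 1 < x) : √x / 2 ≤ x / Real.log x := by
  have hx0 : 0 < x := by linarith
  have hs : 0 < √x := Real.sqrt_pos.2 hx0
  have h1 : Real.log x = 2 * Real.log (√x) := by
    rw [Real.log_sqrt hx0.le]; ring
  have h2 := Real.log_le_sub_one_of_pos hs
  have h3 : 0 < Real.log x := Real.log_pos hx
  have h4 : √x * √x = x := Real.mul_self_sqrt hx0.le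
  rw [div_le_div_iff₀ (by norm_num) h3]
  nlinarith

theorem choose_aux : ∃ x₀ : ℝ, ∀ x : ℝ, x₀ ≤ x → ∃ P : Finset ℕ,
    (∀ p ∈ P, p.Prime ∧ p % 4 = 1) ∧ 2 * (∏ p ∈ P, (p : ℝ)) ≤ Real.exp (x / 2) ∧
    8 * (3 / 5 : ℝ) ^ P.card ≤ Real.exp (- (x / (200 * Real.log x))) := by
  obtain ⟨t₀, ht₀⟩ := many
  refine ⟨max (max 100 ((80 * (t₀ + 2)^2) ^ 2)) ((2 * 3200) ^ 2), fun x hx => ?_⟩
  have hx1 : 100 ≤ x := (le_max_left _ _).trans ((le_max_left _ _).trans hx)
  have hx2 : ((80 * (t₀ + 2)^2) ^ 2 : ℝ) ≤ x := (le_max_right _ _).trans ((le_max_left _ _).trans hx)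
  have hx3 : ((2 * 3200) ^ 2 : ℝ) ≤ x := (le_max_right _ _).trans hx
  have hx0 : 0 < x := by linarith
  set l := Real.log x with hl
  have hl1 : 1 ≤ l := by
    rw [hl, Real.le_log_iff_exp_le hx0]
    have := Real.exp_one_lt_d9
    linarith
  have hd := div_log_ge (x := x) (by linarith)
  rw [← hl] at hd
  set s := √(x / (20 * l)) with hs
  have hs2 : s ^ 2 = x / (20 * l) := Real.sq_sqrt (by positivity)
  have hs2' : s ^ 2 = (x / l) / 20 := by rw [hs2]; field_simp
  have hs0 : 0 ≤ s := Real.sqrt_nonneg _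
  have hsx : (80 * (t₀ + 2)^2 : ℝ) ≤ √x := by
    apply Real.le_sqrt_of_sq_le hx2
  have hst : (t₀ : ℝ) + 2 ≤ s := by
    apply Real.le_sqrt_of_sq_le
    rw [← hs2, hs2']
    have : (0 : ℝ) ≤ ((t₀ : ℝ) + 2) ^ 2 := by positivity
    linarith
  set t := ⌊s⌋₊ with ht
  have htle : (t : ℝ) ≤ s := Nat.floor_le hs0
  have htlt : s < t + 1 := Nat.lt_floor_add_one s
  have htt₀ : t₀ ≤ t := by
    apply Nat.le_floor
    linarith
  have ht1 : 1 ≤ t := by
    apply Nat.le_floor
    have : (0 : ℝ) ≤ t₀ := by positivity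
    push_cast
    linarith
  have ht1R : (1 : ℝ) ≤ t := by exact_mod_cast ht1
  obtain ⟨P, hP1, hP2⟩ := Finset.exists_subset_card_eq (ht₀ t htt₀).le
  have hl0 : 0 < l := by linarith
  refine ⟨P, fun p hp => (mem_P1.1 (hP1 hp)).2, ?_, ?_⟩
  · have h1 : ∏ p ∈ P, (p : ℝ) ≤ (5 * (t : ℝ) ^ 8) ^ P.card := by
      rw [← Finset.prod_const]
      apply Finset.prod_le_prod
      · intro p _; positivity
      · intro p hp
        have h2 : p ≤ 4 * t ^ 8 + 1 := (mem_P1.1 (hP1 hp)).1.2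
        have h3 : (p : ℝ) ≤ 4 * (t : ℝ) ^ 8 + 1 := by exact_mod_cast h2
        have h4 : (1 : ℝ) ≤ (t : ℝ) ^ 8 := one_le_pow₀ ht1R
        linarith
    rw [hP2] at h1
    have h5 : (5 * (t : ℝ) ^ 8) ^ (t ^ 2) = Real.exp ((t : ℝ) ^ 2 * (Real.log 5 + 8 * Real.log t)) := by
      rw [← Real.exp_log (show (0 : ℝ) < (5 * (t : ℝ) ^ 8) ^ (t ^ 2) by positivity), Real.log_pow,
        Real.log_mul (by norm_num) (by positivity), Real.log_pow]
      push_cast
      rfl
    have h6 : Real.log 5 ≤ 2 := by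
      have h4 : (5 : ℝ) ≤ Real.exp 2 := by
        have := Real.exp_one_gt_d9
        have e : Real.exp 2 = Real.exp 1 * Real.exp 1 := by rw [← Real.exp_add]; norm_num
        rw [e]; nlinarith
      have := Real.log_le_log (by norm_num) h4
      rwa [Real.log_exp] at this
    have h7 : (t : ℝ) ^ 2 ≤ x / (20 * l) := by
      rw [← hs2]
      exact pow_le_pow_left₀ (by positivity) htle 2
    have h8 : 2 * Real.log t ≤ l := by
      have e : 2 * Real.log (t : ℝ) = Real.log ((t : ℝ) ^ 2) := by rw [Real.log_pow]; push_cast; ring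
      rw [e, hl]
      apply Real.log_le_log (by positivity)
      refine h7.trans ?_
      rw [div_le_iff₀ (by positivity)]
      nlinarith
    have h9 : (t : ℝ) ^ 2 * (Real.log 5 + 8 * Real.log t) ≤ 3 * x / 10 := by
      calc (t : ℝ) ^ 2 * (Real.log 5 + 8 * Real.log t) ≤ (t : ℝ) ^ 2 * (6 * l) := by
            apply mul_le_mul_of_nonneg_left _ (by positivity)
            linarith
        _ ≤ x / (20 * l) * (6 * l) := mul_le_mul_of_nonneg_right h7 (by positivity)
        _ = 3 * x / 10 := by field_simp; norm_num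
    have h10 : (2 : ℝ) ≤ Real.exp 1 := by
      have := Real.add_one_le_exp (1 : ℝ)
      linarith
    calc 2 * ∏ p ∈ P, (p : ℝ) ≤ Real.exp 1 * Real.exp ((t : ℝ) ^ 2 * (Real.log 5 + 8 * Real.log t)) := by
          rw [← h5]
          exact mul_le_mul h10 h1 (Finset.prod_nonneg fun p _ => by positivity) (Real.exp_pos _).le
      _ = Real.exp (1 + (t : ℝ) ^ 2 * (Real.log 5 + 8 * Real.log t)) := by rw [Real.exp_add]
      _ ≤ _ := by
        apply Real.exp_le_exp.2
        linarith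
  · rw [hP2]
    have hw : x / (80 * l) ≤ ((t ^ 2 : ℕ) : ℝ) := by
      have h1 : s / 2 ≤ t := by
        have : (0 : ℝ) ≤ t₀ := by positivity
        linarith
      have h2 : (s / 2) ^ 2 ≤ (t : ℝ) ^ 2 := pow_le_pow_left₀ (by positivity) h1 2
      push_cast
      calc x / (80 * l) = (s / 2) ^ 2 := by rw [div_pow, hs2]; field_simp; norm_num
        _ ≤ _ := h2
    have h35 : (3 / 5 : ℝ) ≤ Real.exp (-(1 / 2)) := by
      rw [Real.exp_neg, le_inv_comm₀ (by norm_num) (Real.exp_pos _)]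
      have h1 : Real.exp (1 / 2) ^ 2 < 2.7182818286 := by
        rw [← Real.exp_nat_mul]
        have e : ((2 : ℕ) : ℝ) * (1 / 2) = 1 := by norm_num
        rw [e]
        exact Real.exp_one_lt_d9
      have h2 : 0 < Real.exp (1 / 2) := Real.exp_pos _
      nlinarith
    have h8 : (8 : ℝ) ≤ Real.exp 4 := by
      have h1 := Real.add_one_le_exp (1 : ℝ)
      have h2 : Real.exp 4 = Real.exp 1 ^ 4 := by rw [← Real.exp_nat_mul]; norm_num
      rw [h2]
      have h3 : (2 : ℝ) ^ 4 ≤ Real.exp 1 ^ 4 := pow_le_pow_left₀ (by norm_num) (by linarith) 4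
      linarith
    calc 8 * (3 / 5 : ℝ) ^ (t ^ 2) ≤ Real.exp 4 * (Real.exp (-(1 / 2))) ^ (t ^ 2) := by
          apply mul_le_mul h8 (pow_le_pow_left₀ (by norm_num) h35 _) (by positivity) (by positivity)
      _ = Real.exp (4 - (1 / 2) * ((t ^ 2 : ℕ) : ℝ)) := by
          rw [← Real.exp_nat_mul, ← Real.exp_add]; congr 1; ring
      _ ≤ _ := by
          apply Real.exp_le_exp.2
          have h3 : x / (80 * l) = (x / l) / 80 := by field_simp
          have h4 : x / (200 * l) = (x / l) / 200 := by field_simp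
          have h5 : (2 * 3200 : ℝ) ≤ √x := Real.le_sqrt_of_sq_le hx3
          rw [h3] at hw
          rw [h4]
          linarith

end Pool.Agent.H264R2.Choose
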