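import Pool.Agent.Helper923.HMertens

set_option autoImplicit false

namespace Pool.Agent.H264R2.Count

open Finset

/-- primes `≡ 1 mod 4` up to `x` -/
def P1 (x : ℕ) : Finset ℕ := (Icc 1 x).filter (fun p => p.Prime ∧ p % 4 = 1)

lemma mem_P1 {x p : ℕ} : p ∈ P1 x ↔ (1 ≤ p ∧ p ≤ x) ∧ p.Prime ∧ p % 4 = 1 := by
  simp [P1, and_assoc]

/-- every prime divisor of `4j²+1` is `≡ 1 mod 4` -/
lemma mod_four {p j : ℕ} (hp : p.Prime) (h : p ∣ 4 * j ^ 2 + 1) : p % 4 = 1 := by
  have : Fact p.Prime := ⟨hp⟩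
  have h2 : p ≠ 2 := by
    rintro rfl
    omega
  have h3 : p % 4 ≠ 3 := by
    have : IsSquare (-1 : ZMod p) := by
      refine ⟨(2 * j : ZMod p), ?_⟩
      have : ((4 * j ^ 2 + 1 : ℕ) : ZMod p) = 0 := (ZMod.natCast_eq_zero_iff _ _).2 h
      push_cast at this
      linear_combination -this
    exact ZMod.exists_sq_eq_neg_one_iff.1 this
  have h4 := hp.eq_two_or_odd
  omega

/-- two roots of `4x²+1` mod `p^k` differ by sign -/
lemma root_cases {p k i j : ℕ} (hp : p.Prime) (hk : 0 < k) (hi : p ^ k ∣ 4 * i ^ 2 + 1)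
    (hj : p ^ k ∣ 4 * j ^ 2 + 1) : i ≡ j [MOD p ^ k] ∨ (p ^ k ∣ i + j) := by
  have hpi : p ∣ 4 * i ^ 2 + 1 := (dvd_pow_self p hk.ne').trans hi
  have hodd : p % 4 = 1 := mod_four hp hpi
  have h2 : ¬ (p : ℤ) ∣ 4 := by
    intro h
    have h' : p ∣ 4 := by exact_mod_cast h
    have := Nat.le_of_dvd (by norm_num) h'
    have := hp.two_le
    interval_cases p <;> simp_all
  have hd : ((p ^ k : ℕ) : ℤ) ∣ 4 * (((j : ℤ) - i) * (i + j)) := by
    have a : ((p ^ k : ℕ) : ℤ) ∣ ((4 * i ^ 2 + 1 : ℕ) : ℤ) := by exact_mod_cast hi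
    have b : ((p ^ k : ℕ) : ℤ) ∣ ((4 * j ^ 2 + 1 : ℕ) : ℤ) := by exact_mod_cast hj
    have h3 := dvd_sub b a
    have e : (((4 * j ^ 2 + 1 : ℕ) : ℤ) - ((4 * i ^ 2 + 1 : ℕ) : ℤ)) = 4 * (((j : ℤ) - i) * (i + j)) := by
      push_cast; ring
    rw [e] at h3
    exact h3
  have hprime : Prime (p : ℤ) := Nat.prime_iff_prime_int.1 hp
  have hcop : IsCoprime ((p ^ k : ℕ) : ℤ) (4 : ℤ) := by
    push_cast
    exact IsCoprime.pow_left ((Prime.coprime_iff_not_dvd hprime).2 h2)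
  have hd' := hcop.dvd_of_dvd_mul_left hd
  -- p does not divide both factors
  by_cases hij : (p : ℤ) ∣ (j : ℤ) - i
  · left
    have hn : ¬ (p : ℤ) ∣ (i : ℤ) + j := by
      intro h
      have h2i : (p : ℤ) ∣ 4 * (i : ℤ) ^ 2 := by
        have : (p : ℤ) ∣ ((i : ℤ) + j) - (j - i) := dvd_sub h hij
        have e : ((i : ℤ) + j) - (j - i) = 2 * i := by ring
        rw [e] at this
        have h4 := this.mul_right (2 * (i : ℤ))
        have e : 2 * (i : ℤ) * (2 * i) = 4 * (i : ℤ) ^ 2 := by ring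
        rw [e] at h4
        exact h4
      have h1 : (p : ℤ) ∣ 1 := by
        have a : (p : ℤ) ∣ 4 * (i : ℤ) ^ 2 + 1 := by exact_mod_cast hpi
        have := dvd_sub a h2i
        simpa using this
      exact hprime.not_isUnit (isUnit_of_dvd_one h1)
    have hcop2 : IsCoprime ((p ^ k : ℕ) : ℤ) ((i : ℤ) + j) := by
      push_cast
      exact IsCoprime.pow_left ((Prime.coprime_iff_not_dvd hprime).2 hn)
    have := hcop2.dvd_of_dvd_mul_right hd'
    exact (Nat.modEq_iff_dvd).2 this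
  · right
    have hcop2 : IsCoprime ((p ^ k : ℕ) : ℤ) ((j : ℤ) - i) := by
      push_cast
      exact IsCoprime.pow_left ((Prime.coprime_iff_not_dvd hprime).2 hij)
    have := hcop2.dvd_of_dvd_mul_left hd'
    exact_mod_cast this

lemma count_class (m q v : ℕ) (hq : 0 < q) :
    (((Icc 1 m).filter (fun j => j ≡ v [MOD q])).card : ℝ) ≤ (m : ℝ) / q + 1 := by
  have h := Nat.Ioc_filter_modEq_card 0 m hq v
  have e : (Icc 1 m).filter (fun j => j ≡ v [MOD q]) = (Ioc 0 m).filter (fun j => j ≡ v [MOD q]) := by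
    ext x; simp [Nat.succ_le_iff]
  rw [e]
  have hq' : (0 : ℚ) < q := by exact_mod_cast hq
  have h' : (((Ioc 0 m).filter (fun j => j ≡ v [MOD q])).card : ℚ) ≤ (m : ℚ) / q + 1 := by
    have : ((((Ioc 0 m).filter (fun j => j ≡ v [MOD q])).card : ℤ) : ℚ) ≤ (m : ℚ) / q + 1 := by
      rw [h]
      push_cast
      apply max_le
      · have h1 := Int.floor_le (((m : ℚ) - v) / q)
        have h2 := Int.lt_floor_add_one (((0 : ℚ) - v) / q)
        have h3 : ((m : ℚ) - v) / q = m / q + (0 - v) / q := by ring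
        rw [h3] at h1 
        rw [h3]
        linarith
      · positivity
    exact_mod_cast this
  have h2 : (((((Ioc 0 m).filter (fun j => j ≡ v [MOD q])).card : ℚ)) : ℝ) ≤ (((m : ℚ) / q + 1 : ℚ) : ℝ) :=
    Rat.cast_le.2 h'
  push_cast at h2
  exact h2

lemma count_roots {m p k : ℕ} (hp : p.Prime) (hk : 0 < k) :
    (((Icc 1 m).filter (fun j => p ^ k ∣ 4 * j ^ 2 + 1)).card : ℝ) ≤ 2 * ((m : ℝ) / p ^ k) + 2 := by
  rcases Finset.eq_empty_or_nonempty ((Icc 1 m).filter (fun j => p ^ k ∣ 4 * j ^ 2 + 1)) with h | ⟨i, hi⟩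
  · rw [h]; simp only [card_empty, Nat.cast_zero]; positivity
  rw [mem_filter] at hi
  have hq : 0 < p ^ k := pow_pos hp.pos k
  set v := p ^ k - i % p ^ k with hv
  have hsub : (Icc 1 m).filter (fun j => p ^ k ∣ 4 * j ^ 2 + 1) ⊆
      (Icc 1 m).filter (fun j => j ≡ i [MOD p ^ k]) ∪ (Icc 1 m).filter (fun j => j ≡ v [MOD p ^ k]) := by
    intro j hj
    rw [mem_filter] at hj
    rw [mem_union, mem_filter, mem_filter]
    rcases root_cases hp hk hi.2 hj.2 with h | h
    · left; exact ⟨hj.1, h.symm⟩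
    · right
      refine ⟨hj.1, ?_⟩
      have h1 : i + j ≡ i + v [MOD p ^ k] := by
        have a : i + j ≡ 0 [MOD p ^ k] := (Nat.modEq_zero_iff_dvd).2 h
        have b : i + v ≡ 0 [MOD p ^ k] := by
          rw [Nat.modEq_zero_iff_dvd, hv]
          have h3 := Nat.mod_lt i hq
          have h4 := Nat.div_add_mod i (p ^ k)
          refine ⟨i / p ^ k + 1, ?_⟩
          rw [mul_add, mul_one]
          omega
        exact a.trans b.symm
      exact Nat.ModEq.add_left_cancel' i h1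
  have h1 := count_class m (p ^ k) i hq
  have h2 := count_class m (p ^ k) v hq
  have h3 : (((Icc 1 m).filter (fun j => p ^ k ∣ 4 * j ^ 2 + 1)).card : ℝ) ≤
      (((Icc 1 m).filter (fun j => j ≡ i [MOD p ^ k])).card : ℝ) +
      (((Icc 1 m).filter (fun j => j ≡ v [MOD p ^ k])).card : ℝ) := by
    exact_mod_cast (card_le_card hsub).trans (card_union_le _ _)
  push_cast at h1 h2
  linarith

/-- `v_p(∏ (4j²+1))` is a sum over powers -/
lemma sum_factorization_le {m p : ℕ} (hp : p.Prime) :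
    ((∑ j ∈ Icc 1 m, (4 * j ^ 2 + 1).factorization p : ℕ) : ℝ) * Real.log p ≤
      2 * m * (Real.log p / (p - 1)) + 2 * Real.log (4 * (m : ℝ) ^ 2 + 1) := by
  set K := Nat.log p (4 * m ^ 2 + 1) with hK
  have hp1 : 1 < p := hp.one_lt
  have hpR : (1 : ℝ) < p := by exact_mod_cast hp1
  have hlogp : 0 < Real.log p := Real.log_pos hpR
  have e : ∀ j ∈ Icc 1 m, (4 * j ^ 2 + 1).factorization p =
      ∑ k ∈ Icc 1 K, if p ^ k ∣ 4 * j ^ 2 + 1 then 1 else 0 := by
    intro j hj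
    rw [mem_Icc] at hj
    rw [← Finset.card_filter]
    have hle : 4 * j ^ 2 + 1 ≤ 4 * m ^ 2 + 1 := by
      have := Nat.pow_le_pow_left hj.2 2
      omega
    have : (Icc 1 K).filter (fun k => p ^ k ∣ 4 * j ^ 2 + 1) = Icc 1 ((4 * j ^ 2 + 1).factorization p) := by
      ext k
      simp only [mem_filter, mem_Icc]
      rw [hp.pow_dvd_iff_le_factorization (by omega)]
      constructor
      · rintro ⟨⟨h1, h2⟩, h3⟩; exact ⟨h1, h3⟩
      · rintro ⟨h1, h3⟩
        refine ⟨⟨h1, ?_⟩, h3⟩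
        have h4 : p ^ k ∣ 4 * j ^ 2 + 1 := (hp.pow_dvd_iff_le_factorization (by omega)).2 h3
        have h5 := Nat.le_of_dvd (by omega) h4
        exact Nat.le_log_of_pow_le hp1 (h5.trans hle)
    rw [this]; simp
  rw [Finset.sum_congr rfl e, Finset.sum_comm]
  have e2 : ∀ k ∈ Icc 1 K, ((∑ j ∈ Icc 1 m, if p ^ k ∣ 4 * j ^ 2 + 1 then 1 else 0 : ℕ) : ℝ) ≤
      2 * ((m : ℝ) / p ^ k) + 2 := by
    intro k hk
    rw [mem_Icc] at hk
    rw [← Finset.card_filter]
    exact count_roots hp (by omega)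
  have e3 : ((∑ k ∈ Icc 1 K, ∑ j ∈ Icc 1 m, (if p ^ k ∣ 4 * j ^ 2 + 1 then 1 else 0) : ℕ) : ℝ) ≤
      ∑ k ∈ Icc 1 K, (2 * ((m : ℝ) / p ^ k) + 2) := by
    rw [Nat.cast_sum]
    exact Finset.sum_le_sum e2
  have e4 : ∑ k ∈ Icc 1 K, (2 * ((m : ℝ) / p ^ k) + 2) ≤ 2 * m / (p - 1) + 2 * K := by
    rw [Finset.sum_add_distrib, Finset.sum_const, Nat.card_Icc, nsmul_eq_mul, ← Finset.mul_sum]
    have : ∑ k ∈ Icc 1 K, ((m : ℝ) / p ^ k) ≤ m / (p - 1) := by
      have h1 : ∀ K : ℕ, ∑ k ∈ Icc 1 K, ((m : ℝ) / p ^ k) = m / (p - 1) * (1 - 1 / p ^ K) := by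
        intro K
        have hpm : (p : ℝ) - 1 ≠ 0 := by linarith
        have hp0 : (p : ℝ) ≠ 0 := by linarith
        induction K with
        | zero => simp
        | succ K ih =>
          rw [Finset.sum_Icc_succ_top (by omega), ih]
          field_simp
          ring
      rw [h1]
      have h2 : (0 : ℝ) ≤ m / (p - 1) := div_nonneg (by positivity) (by linarith)
      have h3 : 1 - 1 / (p : ℝ) ^ K ≤ 1 := by
        have : (0 : ℝ) ≤ 1 / (p : ℝ) ^ K := by positivity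
        linarith
      nlinarith
    have h5 : ((K + 1 - 1 : ℕ) : ℝ) = K := by simp
    rw [h5]
    have h6 : 2 * (m : ℝ) / (p - 1) = 2 * (m / (p - 1)) := by ring
    rw [h6]
    linarith
  have e5 : (K : ℝ) * Real.log p ≤ Real.log (4 * (m : ℝ) ^ 2 + 1) := by
    rw [← Real.log_pow]
    apply Real.log_le_log (by positivity)
    have := Nat.pow_log_le_self p (x := 4 * m ^ 2 + 1) (by omega)
    exact_mod_cast this
  calc _ ≤ (2 * m / (p - 1) + 2 * K) * Real.log p :=
        mul_le_mul_of_nonneg_right (e3.trans e4) hlogp.le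
    _ = 2 * m * (Real.log p / (p - 1)) + 2 * (K * Real.log p) := by ring
    _ ≤ _ := by linarith

lemma log_eq {m j : ℕ} (hj : j ∈ Icc 1 m) :
    Real.log (4 * (j : ℝ) ^ 2 + 1) =
      ∑ p ∈ P1 (4 * m ^ 2 + 1), ((4 * j ^ 2 + 1).factorization p : ℝ) * Real.log p := by
  have h0 : (4 * (j : ℝ) ^ 2 + 1) = ((4 * j ^ 2 + 1 : ℕ) : ℝ) := by push_cast; ring
  rw [h0, Real.log_nat_eq_sum_factorization, Finsupp.sum]
  rw [mem_Icc] at hj
  have h1 : (4 * j ^ 2 + 1).factorization.support ⊆ P1 (4 * m ^ 2 + 1) := by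
    intro p hp
    rw [Nat.support_factorization, Nat.mem_primeFactors] at hp
    rw [mem_P1]
    have h2 := Nat.le_of_dvd (by omega) hp.2.1
    have h3 := Nat.pow_le_pow_left hj.2 2
    exact ⟨⟨hp.1.one_lt.le, by omega⟩, hp.1, mod_four hp.1 hp.2.1⟩
  refine Finset.sum_subset h1 fun p _ hp => ?_
  rw [Finsupp.notMem_support_iff] at hp
  rw [hp]; simp

lemma upper (m : ℕ) : ∑ j ∈ Icc 1 m, Real.log (4 * (j : ℝ) ^ 2 + 1) ≤
    ∑ p ∈ P1 (4 * m ^ 2 + 1), (2 * m * (Real.log p / (p - 1)) + 2 * Real.log (4 * (m : ℝ) ^ 2 + 1)) := by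
  rw [Finset.sum_congr rfl (fun j hj => log_eq hj), Finset.sum_comm]
  apply Finset.sum_le_sum
  intro p hp
  rw [mem_P1] at hp
  have := sum_factorization_le (m := m) hp.2.1
  rw [← Finset.sum_mul]
  exact_mod_cast this

lemma lower (m : ℕ) : 2 * (m * Real.log m - m) ≤ ∑ j ∈ Icc 1 m, Real.log (4 * (j : ℝ) ^ 2 + 1) := by
  rcases Nat.eq_zero_or_pos m with rfl | hm
  · simp
  have hmR : (0 : ℝ) < m := by exact_mod_cast hm
  have h1 : ∑ j ∈ Icc 1 m, (2 * Real.log (j : ℝ)) ≤ ∑ j ∈ Icc 1 m, Real.log (4 * (j : ℝ) ^ 2 + 1) := by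
    apply Finset.sum_le_sum
    intro j hj
    rw [mem_Icc] at hj
    have hj' : (0 : ℝ) < j := by exact_mod_cast hj.1
    have e : 2 * Real.log (j : ℝ) = Real.log ((j : ℝ) ^ 2) := by rw [Real.log_pow]; push_cast; ring
    rw [e]
    apply Real.log_le_log (by positivity)
    nlinarith [sq_nonneg (j : ℝ)]
  have h2 : ∑ j ∈ Icc 1 m, (2 * Real.log (j : ℝ)) = 2 * Real.log (m.factorial : ℝ) := by
    rw [← Finset.mul_sum]
    congr 1
    have h : ∏ j ∈ Icc 1 m, (j : ℝ) = (m.factorial : ℝ) := by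
      have h5 := Finset.prod_Ico_id_eq_factorial m
      have h6 : Ico 1 (m + 1) = Icc 1 m := by ext x; simp
      rw [h6] at h5
      rw [← h5]
      push_cast
      rfl
    rw [← h, Real.log_prod]
    intro j hj
    rw [mem_Icc] at hj
    have : (0 : ℝ) < j := by exact_mod_cast hj.1
    exact this.ne'
  have h3 : (m : ℝ) ^ m / m.factorial ≤ Real.exp m := Real.pow_div_factorial_le_exp m hmR.le m
  have hf : (0 : ℝ) < m.factorial := by exact_mod_cast Nat.factorial_pos m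
  have h4 : m * Real.log m - m ≤ Real.log (m.factorial : ℝ) := by
    have := Real.log_le_log (by positivity) h3
    rw [Real.log_exp, Real.log_div (by positivity) hf.ne', Real.log_pow] at this
    linarith
  linarith

lemma mertens : ∃ C : ℝ, 0 ≤ C ∧ ∀ x y : ℕ, 1 ≤ y →
    ∑ p ∈ P1 x, Real.log p / ((p : ℝ) - 1) ≤ Real.log y + C + (P1 x).card * (Real.log x / y) := by
  obtain ⟨C1, h1⟩ := Pool.Agent.Helper923.HMertens.mertens_log
  obtain ⟨C2, h20, h2⟩ := Pool.Agent.Helper923.HMertens.sum_small_bound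
  refine ⟨|C1| + C2, by positivity, fun x y hy => ?_⟩
  have hyR : (0 : ℝ) < y := by exact_mod_cast hy
  rw [← Finset.sum_filter_add_sum_filter_not (P1 x) (fun p => p ≤ y)]
  have a1 : ∑ p ∈ (P1 x).filter (fun p => p ≤ y), Real.log p / ((p : ℝ) - 1) ≤ Real.log y + (|C1| + C2) := by
    have hs : (P1 x).filter (fun p => p ≤ y) ⊆ (Icc 1 y).filter Nat.Prime := by
      intro p hp
      rw [mem_filter, mem_P1] at hp
      rw [mem_filter, mem_Icc]
      exact ⟨⟨hp.1.1.1, hp.2⟩, hp.1.2.1⟩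
    have a2 : ∑ p ∈ (P1 x).filter (fun p => p ≤ y), Real.log p / ((p : ℝ) - 1) ≤
        ∑ p ∈ (Icc 1 y).filter Nat.Prime, (Real.log p / p + Real.log p / (p * (p - 1))) := by
      refine (Finset.sum_le_sum (g := fun p : ℕ => Real.log p / p + Real.log p / (p * (p - 1))) ?_).trans
        (Finset.sum_le_sum_of_subset_of_nonneg hs ?_)
      · intro p hp
        rw [mem_filter, mem_P1] at hp
        have hp1 : (1 : ℝ) < p := by exact_mod_cast hp.1.2.1.one_lt
        have : (p : ℝ) - 1 ≠ 0 := by linarith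
        have : (p : ℝ) ≠ 0 := by linarith
        apply le_of_eq
        field_simp
        ring
      · intro p hp _
        rw [mem_filter] at hp
        have hp1 : (1 : ℝ) < p := by exact_mod_cast hp.2.one_lt
        have : 0 < Real.log p := Real.log_pos hp1
        have : (0 : ℝ) < p - 1 := by linarith
        positivity
    rw [Finset.sum_add_distrib] at a2
    have b1 := (abs_le.1 (h1 y hy)).2
    have b2 := h2 y
    have b3 := le_abs_self C1
    have b4 : ∑ p ∈ Pool.Agent.Helper923.HMertens.PP y, Real.log p / (p * ((p : ℝ) - 1)) =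
      ∑ p ∈ (Icc 1 y).filter Nat.Prime, Real.log p / (p * ((p : ℝ) - 1)) := rfl
    linarith
  have a3 : ∑ p ∈ (P1 x).filter (fun p => ¬ p ≤ y), Real.log p / ((p : ℝ) - 1) ≤
      (P1 x).card * (Real.log x / y) := by
    calc _ ≤ ∑ p ∈ (P1 x).filter (fun p => ¬ p ≤ y), Real.log x / y := by
          apply Finset.sum_le_sum
          intro p hp
          rw [mem_filter, mem_P1] at hp
          have hp1 : (1 : ℝ) < p := by exact_mod_cast hp.1.2.1.one_lt
          have h3 : (p : ℝ) ≤ x := by exact_mod_cast hp.1.1.2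
          have h4 : (y : ℝ) + 1 ≤ p := by
            have : y + 1 ≤ p := by omega
            exact_mod_cast this
          have h5 : Real.log p ≤ Real.log x := Real.log_le_log (by linarith) h3
          exact div_le_div₀ (Real.log_nonneg (by linarith)) h5 hyR (by linarith)
      _ = (((P1 x).filter (fun p => ¬ p ≤ y)).card : ℝ) * (Real.log x / y) := by
          rw [Finset.sum_const, nsmul_eq_mul]
      _ ≤ _ := by
          apply mul_le_mul_of_nonneg_right
          · exact_mod_cast card_filter_le _ _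
          · rcases Nat.eq_zero_or_pos x with rfl | hx
            · simp
            · apply div_nonneg (Real.log_nonneg (by exact_mod_cast hx)) hyR.le
  linarith

/-- there are more than `t²` primes `≡ 1 mod 4` up to `4t⁸+1` -/
theorem many : ∃ t₀ : ℕ, ∀ t : ℕ, t₀ ≤ t → t ^ 2 < (P1 (4 * t ^ 8 + 1)).card := by
  obtain ⟨C, hC0, hC⟩ := mertens
  obtain ⟨t₀, ht₀⟩ := exists_nat_gt (Real.exp (C + 30))
  refine ⟨t₀, fun t ht => ?_⟩
  by_contra hcon
  push Not at hcon
  have htR : Real.exp (C + 30) < t := ht₀.trans_le (by exact_mod_cast ht)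
  have htpos : (0 : ℝ) < t := (Real.exp_pos _).trans htR
  have ht1 : 1 ≤ t := by exact_mod_cast htpos
  have hlog : C + 30 < Real.log t := by
    rw [← Real.log_exp (C + 30)]
    exact Real.log_lt_log (Real.exp_pos _) htR
  have e : 4 * t ^ 8 + 1 = 4 * (t ^ 4) ^ 2 + 1 := by ring
  have hl := lower (t ^ 4)
  have hu := upper (t ^ 4)
  rw [← e] at hu
  rw [Finset.sum_add_distrib, ← Finset.mul_sum, Finset.sum_const, nsmul_eq_mul] at hu
  have hm := hC (4 * t ^ 8 + 1) (t ^ 3) (Nat.one_le_pow _ _ ht1)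
  set N : ℝ := ((P1 (4 * t ^ 8 + 1)).card : ℝ) with hN
  have hNle : N ≤ (t : ℝ) ^ 2 := by rw [hN]; exact_mod_cast hcon
  have hN0 : 0 ≤ N := by positivity
  push_cast at hl hu hm
  set X : ℝ := Real.log (4 * (t : ℝ) ^ 8 + 1) with hX
  have e2 : Real.log (4 * ((t : ℝ) ^ 4) ^ 2 + 1) = X := by rw [hX]; congr 2; ring
  rw [e2] at hu
  set S : ℝ := ∑ p ∈ P1 (4 * t ^ 8 + 1), Real.log p / ((p : ℝ) - 1) with hS
  set L := Real.log (t : ℝ) with hL
  have e4 : Real.log ((t : ℝ) ^ 4) = 4 * L := by rw [Real.log_pow]; push_cast; ring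
  have e3 : Real.log ((t : ℝ) ^ 3) = 3 * L := by rw [Real.log_pow]; push_cast; ring
  rw [e4] at hl
  rw [e3] at hm
  have ht1R : (1 : ℝ) ≤ t := by exact_mod_cast ht1
  have hX5 : X ≤ 2 + 8 * L := by
    have h1 : 4 * (t : ℝ) ^ 8 + 1 ≤ 5 * (t : ℝ) ^ 8 := by
      have : (1 : ℝ) ≤ (t : ℝ) ^ 8 := one_le_pow₀ ht1R
      linarith
    have h2 : X ≤ Real.log (5 * (t : ℝ) ^ 8) := Real.log_le_log (by positivity) h1
    rw [Real.log_mul (by norm_num) (by positivity), Real.log_pow] at h2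
    have h3 : Real.log 5 ≤ 2 := by
      have h4 : (5 : ℝ) ≤ Real.exp 2 := by
        have := Real.exp_one_gt_d9
        have e : Real.exp 2 = Real.exp 1 * Real.exp 1 := by rw [← Real.exp_add]; norm_num
        rw [e]; nlinarith
      have := Real.log_le_log (by norm_num) h4
      rwa [Real.log_exp] at this
    push_cast at h2
    linarith
  have hX0 : 0 ≤ X := Real.log_nonneg (by
    have : (0 : ℝ) ≤ (t : ℝ) ^ 8 := by positivity
    linarith)
  have hLt : L ≤ t := by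
    have := Real.log_le_sub_one_of_pos htpos
    linarith
  have hXt : X ≤ 10 * t := by nlinarith
  -- bound S
  have hS1 : N * (X / (t : ℝ) ^ 3) ≤ 10 := by
    have : N * (X / (t : ℝ) ^ 3) ≤ (t : ℝ) ^ 2 * (10 * t / (t : ℝ) ^ 3) := by
      apply mul_le_mul hNle _ (div_nonneg hX0 (by positivity)) (by positivity)
      exact div_le_div_of_nonneg_right hXt (by positivity)
    have e5 : (t : ℝ) ^ 2 * (10 * t / (t : ℝ) ^ 3) = 10 := by
      field_simp
    linarith
  have hS2 : S ≤ 3 * L + C + 10 := by linarith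
  have hNX : N * (2 * X) ≤ 20 * (t : ℝ) ^ 4 := by
    have h1 : N * (2 * X) ≤ (t : ℝ) ^ 2 * (2 * (10 * t)) := by
      apply mul_le_mul hNle _ (by positivity) (by positivity)
      linarith
    have h2 : (t : ℝ) ^ 3 ≤ (t : ℝ) ^ 4 := pow_le_pow_right₀ ht1R (by norm_num)
    nlinarith
  have ht4 : (0 : ℝ) < (t : ℝ) ^ 4 := by positivity
  have hfin : 2 * ((t : ℝ) ^ 4 * (4 * L) - (t : ℝ) ^ 4) ≤ 2 * (t : ℝ) ^ 4 * (3 * L + C + 10) + 20 * (t : ℝ) ^ 4 := by
    have : 2 * (t : ℝ) ^ 4 * S ≤ 2 * (t : ℝ) ^ 4 * (3 * L + C + 10) :=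
      mul_le_mul_of_nonneg_left hS2 (by positivity)
    linarith
  have : (t : ℝ) ^ 4 * L ≤ (t : ℝ) ^ 4 * (C + 21) := by nlinarith
  have := le_of_mul_le_mul_left this ht4
  linarith

end Pool.Agent.H264R2.Count
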